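import Pool.Agent.Helper73.LR.Stmts

/-!
# First order expansion of the cap moments near the ball (module HEX of MP_a2630c_LR)
-/

open MeasureTheory Set Metric Real
open scoped RealInnerProductSpace ENNReal
open Pool.Agent.Helper16.Buoy (E cap)
open Pool.Agent.Helper73.HV (supp)

namespace Pool.Agent.Helper13.LR

open Pool.Agent.Helper73.LR

instance finSg (n : ℕ) : IsFiniteMeasure (sg n) := by
  unfold sg; infer_instance

theorem cb_ball (n : ℕ) : CB (BB n) where
  conv := convex_closedBall 0 1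
  comp := isCompact_closedBall 0 1
  int := ⟨0, mem_interior.2 ⟨ball 0 1, ball_subset_closedBall, isOpen_ball,
    mem_ball_self one_pos⟩⟩

variable {n : ℕ} {K : Set (E n)}

theorem cb_vol_ne_top (hK : CB K) : volume K ≠ ⊤ := hK.comp.measure_lt_top.ne

theorem cb_vol_pos (hK : CB K) : 0 < vol K := by
  unfold vol
  exact ENNReal.toReal_pos ((isOpen_interior.measure_pos volume hK.int).trans_le
    (measure_mono interior_subset)).ne' (cb_vol_ne_top hK)

theorem ofReal_vol (hK : CB K) : ENNReal.ofReal (vol K) = volume K :=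
  ENNReal.ofReal_toReal (cb_vol_ne_top hK)

/-- The level of relative volume `θ` minimises. -/
theorem lev_min (hL : S_level) (hK : CB K) {θ : ℝ} (h0 : 0 < θ) (h1 : θ < 1) {u : E n}
    (hu : ‖u‖ = 1) {τ : ℝ} (hτ : volume (cap K u τ) = ENNReal.ofReal (θ * vol K)) (τ' : ℝ) :
    GG K u τ + θ * vol K * τ ≤ GG K u τ' + θ * vol K * τ' := by
  have hv := cb_vol_pos hK
  have hlt : ENNReal.ofReal (θ * vol K) < volume K := by
    rw [← ofReal_vol hK]
    exact (ENNReal.ofReal_lt_ofReal_iff hv).2 (by nlinarith)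
  have hu0 : u ≠ 0 := by
    rintro rfl
    simp at hu
  exact (hL hK (mul_pos h0 hv) hlt hu0).2 τ τ' hτ

theorem max_sub_lip (a t t' : ℝ) : |max (a - t) 0 - max (a - t') 0| ≤ |t - t'| := by
  have h := abs_max_sub_max_le_abs (a - t) (a - t') 0
  refine h.trans (le_of_eq ?_)
  rw [← abs_neg]
  congr 1
  ring

theorem cont_max (u : E n) (t : ℝ) : Continuous fun x : E n => max (inner ℝ u x - t) 0 := by
  fun_prop

theorem gg_int (hK : CB K) (u : E n) (t : ℝ) :
    IntegrableOn (fun x : E n => max (inner ℝ u x - t) 0) K :=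
  (cont_max u t).continuousOn.integrableOn_compact hK.comp

theorem gg_lip (hK : CB K) (u : E n) (t t' : ℝ) : |GG K u t - GG K u t'| ≤ vol K * |t - t'| := by
  unfold GG
  rw [← integral_sub (gg_int hK u t) (gg_int hK u t')]
  have h := norm_setIntegral_le_of_norm_le_const (μ := (volume : Measure (E n))) (s := K)
    (f := fun x : E n => max (inner ℝ u x - t) 0 - max (inner ℝ u x - t') 0) (C := |t - t'|)
    hK.comp.measure_lt_top (fun x _ => by
      rw [Real.norm_eq_abs]
      exact max_sub_lip _ _ _)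
  rw [Real.norm_eq_abs] at h
  rw [mul_comm]
  exact h

/-- Dependence of the kernel integral on the level. -/
theorem ki_lip {χ : SS n → ℝ} (hχ : Continuous χ) {ε : ℝ} (hb : ∀ v, |χ v| ≤ ε) (u : E n)
    (t t' : ℝ) : |KI t χ u - KI t' χ u| ≤ (sg n).real univ * |t - t'| * ε := by
  unfold KI
  have hi : ∀ t, Integrable (fun v : SS n => max (inner ℝ u (v : E n) - t) 0 * χ v) (sg n) := by
    intro t
    apply Continuous.integrable_of_hasCompactSupport
    · exact (((cont_max u t).comp continuous_subtype_val).mul hχ)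
    · exact HasCompactSupport.of_compactSpace _
  rw [← integral_sub (hi t) (hi t')]
  have h := norm_integral_le_of_norm_le_const (μ := sg n)
    (f := fun v : SS n => max (inner ℝ u (v : E n) - t) 0 * χ v
      - max (inner ℝ u (v : E n) - t') 0 * χ v) (C := |t - t'| * ε)
    (Filter.Eventually.of_forall fun v => by
      rw [Real.norm_eq_abs, ← sub_mul, abs_mul]
      exact mul_le_mul (max_sub_lip _ _ _) (hb v) (abs_nonneg _) (abs_nonneg _))
  rw [Real.norm_eq_abs] at h
  linarith

/-- Volume near the ball. -/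
theorem vol_near (hS : S_shell) (hR : S_rad) (n : ℕ) (hn : 1 ≤ n) : ∃ C : ℝ, 0 < C ∧
    ∀ {K : Set (E n)} {ε : ℝ}, CB K → 0 ≤ ε → ε ≤ 1 / 2 → Near K ε →
      |vol K - vol (BB n)| ≤ C * ε := by
  obtain ⟨C, hC, h⟩ := hS n hn
  refine ⟨C + (sg n).real univ, by positivity, ?_⟩
  intro K ε hK h0 h1 hN
  have h2 := h hK h0 h1 hN (fun _ => 1) 0 1 le_rfl (fun x _ y _ => by simp)
    (fun x _ => by simp)
  have h3 := norm_integral_le_of_norm_le_const (μ := sg n)
    (f := fun v : SS n => (1 : ℝ) * (rad K v - 1)) (C := ε)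
    (Filter.Eventually.of_forall fun v => by
      rw [Real.norm_eq_abs, one_mul]
      exact ((hR hK h0 h1 hN).2 v (by simp)).1)
  rw [Real.norm_eq_abs] at h3
  have h4 : (∫ x in K, (1 : ℝ)) = vol K := by
    rw [setIntegral_const, smul_eq_mul, mul_one]; rfl
  have h5 : (∫ x in BB n, (1 : ℝ)) = vol (BB n) := by
    rw [setIntegral_const, smul_eq_mul, mul_one]; rfl
  rw [h4, h5] at h2
  have h6 := abs_le.1 h2
  have h7 := abs_le.1 h3
  have h8 : C * (0 + 1) * ε ^ 2 ≤ C * ε := by nlinarith [mul_nonneg hC.le h0]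
  rw [abs_le]
  constructor <;> nlinarith

/-- Expansion of the cap moment at a fixed level. -/
theorem gg_near (hS : S_shell) (n : ℕ) (hn : 1 ≤ n) : ∃ C : ℝ, 0 < C ∧
    ∀ {K : Set (E n)} {ε : ℝ}, CB K → 0 ≤ ε → ε ≤ 1 / 2 → Near K ε → ∀ (u : E n) (t : ℝ), ‖u‖ = 1 →
      |t| ≤ 2 → |GG K u t - GG (BB n) u t - KI t (fun v : SS n => rad K v - 1) u| ≤ C * ε ^ 2 := by
  obtain ⟨C, hC, h⟩ := hS n hn
  refine ⟨C * (1 + 4), by positivity, ?_⟩
  intro K ε hK h0 h1 hN u t hu ht
  have h2 := h hK h0 h1 hN (fun x => max (inner ℝ u x - t) 0) 1 4 zero_le_one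
    (fun x _ y _ => by
      have h3 := abs_max_sub_max_le_abs (inner ℝ u x - t) (inner ℝ u y - t) 0
      refine h3.trans ?_
      have h4 : (inner ℝ u x - t) - (inner ℝ u y - t) = (inner ℝ u (x - y) : ℝ) := by
        rw [inner_sub_right]; ring
      rw [h4, one_mul]
      have h5 := abs_real_inner_le_norm u (x - y)
      rwa [hu, one_mul] at h5)
    (fun x hx => by
      have h5 := abs_real_inner_le_norm u x
      rw [hu, one_mul] at h5
      rw [mem_closedBall_zero_iff] at hx
      rw [abs_of_nonneg (le_max_right _ _)]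
      have h6 := abs_le.1 h5
      have h7 := abs_le.1 ht
      exact max_le (by linarith) (by norm_num))
  exact h2

theorem vol_ball_scale (n : ℕ) {r : ℝ} (hr : 0 ≤ r) :
    vol (closedBall (0 : E n) r) = r ^ n * vol (BB n) := by
  unfold vol
  rw [Measure.addHaar_closedBall' _ _ hr, ENNReal.toReal_mul, ENNReal.toReal_ofReal (by positivity)]
  simp

/-- Caps of `K` and of the ball have almost the same volume. -/
theorem cap_near (hK : CB K) {ε : ℝ} (h0 : 0 ≤ ε) (h1 : ε ≤ 1 / 2) (hN : Near K ε) (u : E n)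
    (τ : ℝ) : |vol (cap (BB n) u τ) - vol (cap K u τ)| ≤
      vol (BB n) * ((1 + ε) ^ n - (1 - ε) ^ n) := by
  set W : Set (E n) := closedBall 0 (1 + ε) with hW
  set w : Set (E n) := closedBall 0 (1 - ε) with hw
  have hwW : w ⊆ W := closedBall_subset_closedBall (by linarith)
  have hWt : volume W ≠ ⊤ := (isCompact_closedBall (0 : E n) _).measure_lt_top.ne
  have hD : vol (W \ w) = vol (BB n) * ((1 + ε) ^ n - (1 - ε) ^ n) := by
    have h2 : vol (W \ w) = vol W - vol w := by
      have := measureReal_sdiff (μ := (volume : Measure (E n))) hwW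
        (isClosed_closedBall.measurableSet) hWt
      exact this
    have h3 := vol_ball_scale n (r := 1 + ε) (by linarith)
    have h4 := vol_ball_scale n (r := 1 - ε) (by linarith)
    rw [h2, h3, h4]
    ring
  have hDt : volume (W \ w) ≠ ⊤ := ne_top_of_le_ne_top hWt (measure_mono sdiff_subset)
  have hKt : volume (cap K u τ) ≠ ⊤ :=
    ne_top_of_le_ne_top (cb_vol_ne_top hK) (measure_mono inter_subset_left)
  have hBt : volume (cap (BB n) u τ) ≠ ⊤ :=
    ne_top_of_le_ne_top (cb_vol_ne_top (cb_ball n)) (measure_mono inter_subset_left)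
  have e1 : vol (cap (BB n) u τ) ≤ vol (cap K u τ) + vol (W \ w) := by
    have hsub : cap (BB n) u τ ⊆ cap K u τ ∪ (W \ w) := by
      rintro x ⟨hx1, hx2⟩
      by_cases hx : x ∈ K
      · exact Or.inl ⟨hx, hx2⟩
      · exact Or.inr ⟨closedBall_subset_closedBall (by linarith) hx1, fun h => hx (hN.1 h)⟩
    calc vol (cap (BB n) u τ) ≤ vol (cap K u τ ∪ (W \ w)) :=
          measureReal_mono hsub (by
            exact (measure_union_lt_top hKt.lt_top hDt.lt_top).ne)
      _ ≤ _ := measureReal_union_le _ _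
  have e2 : vol (cap K u τ) ≤ vol (cap (BB n) u τ) + vol (W \ w) := by
    have hsub : cap K u τ ⊆ cap (BB n) u τ ∪ (W \ w) := by
      rintro x ⟨hx1, hx2⟩
      by_cases hx : x ∈ BB n
      · exact Or.inl ⟨hx, hx2⟩
      · exact Or.inr ⟨hN.2 hx1, fun h => hx (closedBall_subset_closedBall (by linarith) h)⟩
    calc vol (cap K u τ) ≤ vol (cap (BB n) u τ ∪ (W \ w)) :=
          measureReal_mono hsub (by
            exact (measure_union_lt_top hBt.lt_top hDt.lt_top).ne)
      _ ≤ _ := measureReal_union_le _ _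
  rw [abs_le, ← hD]
  constructor <;> linarith

theorem hexp (hL : S_level) (hS : S_shell) (hR : S_rad) (hB : S_ball_level) (hC : S_ball_cont) :
    S_hexp := by
  intro n hn θ0 t0 H0 hθ0 hθ1 hBL η hη
  obtain ⟨C, hCpos, hG⟩ := gg_near hS n hn
  obtain ⟨C1, hC1, hV⟩ := vol_near hS hR n hn
  set S : ℝ := (sg n).real univ with hSdef
  have hSnn : 0 ≤ S := measureReal_nonneg
  set V : ℝ := vol (BB n) with hVdef
  have hVpos : 0 < V := cb_vol_pos (cb_ball n)
  -- choice of the tolerance for the levels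
  obtain ⟨δ, hδ0, hδ1, hδ2, hδ3⟩ : ∃ δ : ℝ, 0 < δ ∧ δ ≤ 1 ∧ (S + 2 * C1) * δ ≤ η / 2 ∧
      2 * V * δ ≤ η / 2 := by
    refine ⟨min 1 (min (η / 2 / (S + 2 * C1)) (η / 2 / (2 * V))), by positivity, min_le_left _ _,
      ?_, ?_⟩
    · have h1 : min 1 (min (η / 2 / (S + 2 * C1)) (η / 2 / (2 * V))) ≤ η / 2 / (S + 2 * C1) :=
        (min_le_right _ _).trans (min_le_left _ _)
      rwa [le_div_iff₀' (by positivity)] at h1
    · have h1 : min 1 (min (η / 2 / (S + 2 * C1)) (η / 2 / (2 * V))) ≤ η / 2 / (2 * V) :=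
        (min_le_right _ _).trans (min_le_right _ _)
      rwa [le_div_iff₀' (by positivity)] at h1
  obtain ⟨ζ, hζ, hcont⟩ := hC n hn hBL hδ0
  -- the volume of the shell is small
  obtain ⟨ρ, hρ, hshell⟩ : ∃ ρ : ℝ, 0 < ρ ∧ ∀ ε : ℝ, 0 ≤ ε → ε < ρ →
      V * ((1 + ε) ^ n - (1 - ε) ^ n) < ζ / 4 := by
    have hc : Continuous fun ε : ℝ => V * ((1 + ε) ^ n - (1 - ε) ^ n) := by fun_prop
    have h1 := Metric.continuous_iff.1 hc 0 (ζ / 4) (by positivity)
    obtain ⟨ρ, hρ, h2⟩ := h1
    refine ⟨ρ, hρ, fun ε he0 he1 => ?_⟩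
    have h3 := h2 ε (by rw [Real.dist_eq, sub_zero, abs_of_nonneg he0]; exact he1)
    rw [Real.dist_eq] at h3
    simp only [add_zero, one_pow, sub_zero, sub_self, mul_zero] at h3
    exact (le_abs_self _).trans_lt h3
  -- choice of ε0
  obtain ⟨ε0, he0, he1, he2, he3, he4, he5, he6, he7, he8⟩ : ∃ ε0 : ℝ, 0 < ε0 ∧ ε0 ≤ 1 / 2 ∧
      C * ε0 ≤ η / 2 ∧ (V + C1) * ε0 ≤ η / 2 ∧ ε0 < θ0 ∧ ε0 < 1 - θ0 ∧ ε0 < ρ ∧
      V * ε0 < ζ / 4 ∧ C1 * ε0 < ζ / 4 := by
    have hpos : ∀ a b : ℝ, 0 < a → 0 < b → 0 < a / b := fun a b ha hb => div_pos ha hb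
    set m : ℝ := min (1 / 2) (min (η / 2 / C) (min (η / 2 / (V + C1)) (min (θ0 / 2)
      (min ((1 - θ0) / 2) (min (ρ / 2) (min (ζ / 8 / V) (ζ / 8 / C1))))))) with hm
    have hm0 : 0 < m := by
      rw [hm]
      have : 0 < 1 - θ0 := by linarith
      positivity
    have hm1 : m ≤ 1 / 2 := min_le_left _ _
    have hm2 : m ≤ η / 2 / C := (min_le_right _ _).trans (min_le_left _ _)
    have hm3 : m ≤ η / 2 / (V + C1) :=
      (min_le_right _ _).trans ((min_le_right _ _).trans (min_le_left _ _))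
    have hm4 : m ≤ θ0 / 2 :=
      (min_le_right _ _).trans ((min_le_right _ _).trans ((min_le_right _ _).trans
        (min_le_left _ _)))
    have hm5 : m ≤ (1 - θ0) / 2 :=
      (min_le_right _ _).trans ((min_le_right _ _).trans ((min_le_right _ _).trans
        ((min_le_right _ _).trans (min_le_left _ _))))
    have hm6 : m ≤ ρ / 2 :=
      (min_le_right _ _).trans ((min_le_right _ _).trans ((min_le_right _ _).trans
        ((min_le_right _ _).trans ((min_le_right _ _).trans (min_le_left _ _)))))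
    have hm7 : m ≤ ζ / 8 / V :=
      (min_le_right _ _).trans ((min_le_right _ _).trans ((min_le_right _ _).trans
        ((min_le_right _ _).trans ((min_le_right _ _).trans ((min_le_right _ _).trans
          (min_le_left _ _))))))
    have hm8 : m ≤ ζ / 8 / C1 :=
      (min_le_right _ _).trans ((min_le_right _ _).trans ((min_le_right _ _).trans
        ((min_le_right _ _).trans ((min_le_right _ _).trans ((min_le_right _ _).trans
          (min_le_right _ _))))))
    refine ⟨m, hm0, hm1, ?_, ?_, by linarith, by linarith, by linarith, ?_, ?_⟩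
    · rwa [le_div_iff₀' hCpos] at hm2
    · rwa [le_div_iff₀' (by positivity)] at hm3
    · rw [le_div_iff₀' hVpos] at hm7
      linarith
    · rw [le_div_iff₀' hC1] at hm8
      linarith
  refine ⟨ε0, he0, ?_⟩
  intro K ε θ hK hε hε0 hθ hN
  have hθa := abs_le.1 hθ
  have hθpos : 0 < θ := by linarith [hθa.1]
  have hθlt : θ < 1 := by linarith [hθa.2]
  have hε2 : ε ≤ 1 / 2 := hε0.trans he1
  obtain ⟨t, H, hbt⟩ := hB n hn hθpos hθlt
  obtain ⟨ht1, ht2, hHpos, hbu⟩ := hbt
  -- the level of the ball at density θ is close to t0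
  have hnz : ∃ u : E n, ‖u‖ = 1 := by
    have : Nonempty (Fin n) := ⟨⟨0, hn⟩⟩
    have : Nontrivial (E n) := inferInstance
    exact exists_norm_eq (E n) zero_le_one
  obtain ⟨u0, hu0⟩ := hnz
  have htt0 : |t - t0| < δ := by
    apply hcont u0 t hu0
    have h1 := (hbu u0 hu0).1
    have h2 : vol (cap (BB n) u0 t) = θ * V := by
      unfold vol
      rw [h1, ENNReal.toReal_ofReal (by positivity)]
    rw [h2, ← sub_mul, abs_mul, abs_of_pos hVpos]
    have : |θ - θ0| * V ≤ ε0 * V := mul_le_mul_of_nonneg_right hθ hVpos.le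
    nlinarith
  have hHH : |H - H0| ≤ 2 * V * δ + V * ε0 := by
    have h1 := (hbu u0 hu0).2
    have h2 := (hBL.2.2.2 u0 hu0).2
    have h3 := gg_lip (cb_ball n) u0 t t0
    rw [← h1, ← h2]
    have h4 : V * |t - t0| ≤ V * δ := mul_le_mul_of_nonneg_left htt0.le hVpos.le
    have h5 : |θ * V * t - θ0 * V * t0| ≤ V * ε0 + V * δ := by
      have h6 : θ * V * t - θ0 * V * t0 = V * ((θ - θ0) * t + θ0 * (t - t0)) := by ring
      rw [h6, abs_mul, abs_of_pos hVpos, ← mul_add]
      apply mul_le_mul_of_nonneg_left _ hVpos.le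
      refine (abs_add_le _ _).trans ?_
      rw [abs_mul, abs_mul, abs_of_pos hθ0]
      have h7 : |t| ≤ 1 := abs_le.2 ⟨by linarith, by linarith⟩
      have h8 : |θ - θ0| * |t| ≤ ε0 * 1 := mul_le_mul hθ h7 (abs_nonneg _) he0.le
      have h9 : θ0 * |t - t0| ≤ 1 * δ := mul_le_mul hθ1.le htt0.le (abs_nonneg _) zero_le_one
      linarith
    have h10 : GG (BB n) u0 t + θ * vol (BB n) * t - (GG (BB n) u0 t0 + θ0 * vol (BB n) * t0)
        = (GG (BB n) u0 t - GG (BB n) u0 t0) + (θ * V * t - θ0 * V * t0) := by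
      rw [hVdef]; ring
    rw [h10]
    refine (abs_add_le _ _).trans ?_
    linarith
  have hvK := hV hK hε.le hε2 hN
  have hvKa := abs_le.1 hvK
  have htabs : |t| ≤ 1 := abs_le.2 ⟨by linarith, by linarith⟩
  have hrad := hR hK hε.le hε2 hN
  have hrb : ∀ v : SS n, |rad K v - 1| ≤ ε := fun v => (hrad.2 v (by simp)).1
  have hrc : Continuous fun v : SS n => rad K v - 1 := hrad.1.sub continuous_const
  refine ⟨H + θ * (vol K - V) * t, ?_, ?_⟩
  · have h1 : |θ * (vol K - V) * t| ≤ C1 * ε0 := by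
      rw [abs_mul, abs_mul, abs_of_pos hθpos]
      have h2 : θ * |vol K - V| ≤ 1 * (C1 * ε) := mul_le_mul hθlt.le hvK (abs_nonneg _) zero_le_one
      have h3 : θ * |vol K - V| * |t| ≤ (1 * (C1 * ε)) * 1 :=
        mul_le_mul h2 htabs (abs_nonneg _) (by positivity)
      have h4 : C1 * ε ≤ C1 * ε0 := mul_le_mul_of_nonneg_left hε0 hC1.le
      linarith
    have h5 : H + θ * (vol K - V) * t - H0 = (H - H0) + θ * (vol K - V) * t := by ring
    rw [h5]
    refine (abs_add_le _ _).trans ?_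
    have : (V + C1) * ε0 = V * ε0 + C1 * ε0 := by ring
    linarith
  · intro u τ hu hτ
    -- the level of K is close to t0
    have hτt0 : |τ - t0| < δ := by
      apply hcont u τ hu
      have h1 := cap_near hK hε.le hε2 hN u τ
      have h2 : vol (cap K u τ) = θ * vol K := by
        have := cb_vol_pos hK
        unfold vol at this ⊢
        rw [hτ]
        unfold vol
        rw [ENNReal.toReal_ofReal (by positivity)]
      have h3 := hshell ε hε.le (hε0.trans_lt he6)
      rw [h2] at h1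
      have h4 : vol (cap (BB n) u τ) - θ0 * vol (BB n)
          = (vol (cap (BB n) u τ) - θ * vol K) + (θ * (vol K - V) + (θ - θ0) * V) := by
        rw [hVdef]; ring
      rw [h4]
      have h5 : |θ * (vol K - V)| ≤ C1 * ε0 := by
        rw [abs_mul, abs_of_pos hθpos]
        have h2 : θ * |vol K - V| ≤ 1 * (C1 * ε) :=
          mul_le_mul hθlt.le hvK (abs_nonneg _) zero_le_one
        have h4 : C1 * ε ≤ C1 * ε0 := mul_le_mul_of_nonneg_left hε0 hC1.le
        linarith
      have h6 : |(θ - θ0) * V| ≤ V * ε0 := by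
        rw [abs_mul, abs_of_pos hVpos, mul_comm]
        exact mul_le_mul_of_nonneg_left hθ hVpos.le
      calc _ ≤ |vol (cap (BB n) u τ) - θ * vol K| + (|θ * (vol K - V)| + |(θ - θ0) * V|) :=
            (abs_add_le _ _).trans (by
              have := abs_add_le (θ * (vol K - V)) ((θ - θ0) * V)
              linarith)
        _ < ζ := by linarith
    have hτa := abs_lt.1 hτt0
    have hta := abs_lt.1 htt0
    have ht01 := hBL.1
    have ht02 := hBL.2.1
    have hτ2 : |τ| ≤ 2 := abs_le.2 ⟨by linarith, by linarith⟩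
    have ht2' : |t| ≤ 2 := abs_le.2 ⟨by linarith, by linarith⟩
    -- expansions at the levels t and τ
    have g1 := abs_le.1 (hG hK hε.le hε2 hN u t hu ht2')
    have g2 := abs_le.1 (hG hK hε.le hε2 hN u τ hu hτ2)
    have k1 : |KI t (fun v : SS n => rad K v - 1) u - KI t0 (fun v : SS n => rad K v - 1) u|
        ≤ S * δ * ε := by
      refine (ki_lip hrc hrb u t t0).trans ?_
      have : S * |t - t0| ≤ S * δ := mul_le_mul_of_nonneg_left htt0.le hSnn
      exact mul_le_mul_of_nonneg_right this hε.le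
    have k2 : |KI τ (fun v : SS n => rad K v - 1) u - KI t0 (fun v : SS n => rad K v - 1) u|
        ≤ S * δ * ε := by
      refine (ki_lip hrc hrb u τ t0).trans ?_
      have : S * |τ - t0| ≤ S * δ := mul_le_mul_of_nonneg_left hτt0.le hSnn
      exact mul_le_mul_of_nonneg_right this hε.le
    have k1a := abs_le.1 k1
    have k2a := abs_le.1 k2
    -- minimality
    have m1 := lev_min hL hK hθpos hθlt hu hτ t
    have m2 := lev_min hL (cb_ball n) hθpos hθlt hu (hbu u hu).1 τ
    have hH := (hbu u hu).2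
    have e1 : C * ε ^ 2 ≤ η / 2 * ε := by
      have : C * ε ≤ η / 2 := (mul_le_mul_of_nonneg_left hε0 hCpos.le).trans he2
      nlinarith
    have e2 : (S + 2 * C1) * δ * ε ≤ η / 2 * ε := mul_le_mul_of_nonneg_right hδ2 hε.le
    have e3 : |θ * (vol K - V) * (τ - t)| ≤ 2 * C1 * δ * ε := by
      rw [abs_mul, abs_mul, abs_of_pos hθpos]
      have h2 : θ * |vol K - V| ≤ 1 * (C1 * ε) := mul_le_mul hθlt.le hvK (abs_nonneg _) zero_le_one
      have h3 : |τ - t| ≤ 2 * δ := abs_le.2 ⟨by linarith, by linarith⟩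
      have h4 : θ * |vol K - V| * |τ - t| ≤ (1 * (C1 * ε)) * (2 * δ) :=
        mul_le_mul h2 h3 (abs_nonneg _) (by positivity)
      linarith
    have e3a := abs_le.1 e3
    have e4 : 0 ≤ C1 * δ * ε := by positivity
    rw [← hVdef] at m2 hH
    have e2' : S * δ * ε + 2 * (C1 * δ * ε) ≤ η / 2 * ε := by
      calc S * δ * ε + 2 * (C1 * δ * ε) = (S + 2 * C1) * δ * ε := by ring
        _ ≤ _ := e2
    have q1 : θ * (vol K - V) * t = θ * vol K * t - θ * V * t := by ring
    have q2 : θ * (vol K - V) * (τ - t) = θ * vol K * τ - θ * V * τ - θ * vol K * t + θ * V * t := by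
      ring
    rw [abs_le]
    constructor
    · rw [q2] at e3a
      linarith only [e3a.1, g2.1, k2a.1, m2, hH, e1, e2', e4, q1]
    · linarith only [g1.2, k1a.2, m1, hH, e1, e2', e4, q1]

end Pool.Agent.Helper13.LR
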